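import Pool.Agent.H37.CTO.Stmts
import Pool.Agent.H46.CTN.FN1a
import Pool.Agent.H55.CTL.T33

/-!
# Row P33 of the board `cto`: no proper stable subspace contains `e_0`

The product `π'` of the `x_u`, `u ∉ U`, and the product of the `x_u`, `u ∈ U`, `u ≠ 0`, are fixed and
integral over `k[t]`, so in `k[t]`, and their product is `1` up to sign; so `π'` is a constant and has
order `0`; but all `x_u`, `u ∉ U`, have negative order.
-/

set_option autoImplicit false

namespace Pool.CND

open Finset Polynomial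

namespace P33a

section

variable {k F L : Type} [Field k] [Field F] [Algebra F k] [Field L] [Algebra k L] {n : ℕ}

/-- the root `x_u` -/
noncomputable def xv (k : Type) {F L : Type} [Field k] [Field F] [Algebra F k] [Field L]
    [Algebra k L] {n : ℕ} (X : Fin n → L) (u : Fin n → F) : L := ∑ i, cst k F L (u i) * X i

theorem xv_neg (X : Fin n → L) (u : Fin n → F) : xv k X (-u) = -xv k X u := by
  unfold xv
  rw [← sum_neg_distrib]
  refine sum_congr rfl fun i _ => ?_
  simp only [Pi.neg_apply, cst, map_neg, neg_mul]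

theorem xv_inj {X : Fin n → L} (hind : ∀ c : Fin n → F, ∑ i, cst k F L (c i) * X i = 0 → c = 0) :
    Function.Injective (xv k X : (Fin n → F) → L) := by
  intro u v huv
  rw [← sub_eq_zero]
  apply hind
  have h1 : ∑ i, cst k F L ((u - v) i) * X i = xv k X u - xv k X v := by
    unfold xv
    rw [← sum_sub_distrib]
    refine sum_congr rfl fun i _ => ?_
    simp only [Pi.sub_apply, cst, map_sub, sub_mul]
  rw [h1, huv, sub_self]

theorem xv_ne {X : Fin n → L} (hind : ∀ c : Fin n → F, ∑ i, cst k F L (c i) * X i = 0 → c = 0)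
    {u : Fin n → F} (hu : u ≠ 0) : xv k X u ≠ 0 := fun h => hu (hind u h)

theorem act_xv {t : L} {X : Fin n → L} {G₀ : Subgroup (Matrix.SpecialLinearGroup (Fin n) F)}
    {ρ : G₀ →* (L ≃ₐ[k] L)} (hC : NCover k F L t X G₀ ρ) (g : G₀) (u : Fin n → F) :
    ρ g (xv k X u) = xv k X (g.1.1.mulVec u) := by
  unfold xv
  rw [map_sum]
  have h1 : ∀ i, ρ g (cst k F L (u i) * X i) =
      ∑ j, cst k F L (g.1.1 j i * u i) * X j := by
    intro i
    have hc : ρ g (cst k F L (u i)) = cst k F L (u i) := AlgEquiv.commutes _ _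
    rw [map_mul, hC.act g i, hc, mul_sum]
    refine sum_congr rfl fun j _ => ?_
    simp only [cst, map_mul]
    ring
  rw [sum_congr rfl fun i _ => h1 i, sum_comm]
  refine sum_congr rfl fun j _ => ?_
  rw [← sum_mul]
  congr 1
  unfold Matrix.mulVec dotProduct
  simp only [cst, map_sum]

/-- products over stable sets are fixed -/
theorem prod_fix [Fintype (Fin n → F)] {t : L} {X : Fin n → L}
    {G₀ : Subgroup (Matrix.SpecialLinearGroup (Fin n) F)}
    {ρ : G₀ →* (L ≃ₐ[k] L)} (hC : NCover k F L t X G₀ ρ) (S : Finset (Fin n → F))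
    (hS : ∀ g ∈ G₀, ∀ u ∈ S, g.1.mulVec u ∈ S) (g : G₀) :
    ρ g (∏ u ∈ S, xv k X u) = ∏ u ∈ S, xv k X u := by
  rw [map_prod]
  refine Finset.prod_nbij' (fun u => g.1.1.mulVec u) (fun u => (g⁻¹).1.1.mulVec u)
    (fun u hu => hS g.1 g.2 u hu) (fun u hu => hS (g⁻¹).1 (g⁻¹).2 u hu) ?_ ?_ ?_
  · intro u _
    show (g⁻¹).1.1.mulVec (g.1.1.mulVec u) = u
    have h : (g⁻¹).1.1 * g.1.1 = 1 := by
      have h1 : ((g⁻¹ * g : G₀) : Matrix.SpecialLinearGroup (Fin n) F).1 = 1 := by
        rw [inv_mul_cancel]
        rfl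
      exact h1
    rw [Matrix.mulVec_mulVec, h, Matrix.one_mulVec]
  · intro u _
    show g.1.1.mulVec ((g⁻¹).1.1.mulVec u) = u
    have h : g.1.1 * (g⁻¹).1.1 = 1 := by
      have h1 : ((g * g⁻¹ : G₀) : Matrix.SpecialLinearGroup (Fin n) F).1 = 1 := by
        rw [mul_inv_cancel]
        rfl
      exact h1
    rw [Matrix.mulVec_mulVec, h, Matrix.one_mulVec]
  · intro u _
    exact act_xv hC g u

/-- order of a product -/
theorem ord_prod (P : Place k L) {ι : Type} (S : Finset ι) (f : ι → L) (hf : ∀ i ∈ S, f i ≠ 0) :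
    P.ord (∏ i ∈ S, f i) = ∑ i ∈ S, P.ord (f i) := by
  classical
  induction S using Finset.induction_on with
  | empty =>
    have h := P.ord_const 1 one_ne_zero
    rw [map_one] at h
    simpa using h
  | insert a S ha ih =>
    rw [prod_insert ha, sum_insert ha, P.ord_mul _ _ (hf a (mem_insert_self a S))
      (prod_ne_zero_iff.2 fun i hi => hf i (mem_insert_of_mem hi)),
      ih fun i hi => hf i (mem_insert_of_mem hi)]

/-- the product of the nonzero roots -/
theorem prod_roots {N : ℕ} {ι : Type} [Fintype ι] [DecidableEq ι] (f : ι → L)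
    (hinj : Function.Injective f) (hcard : Fintype.card ι = N) (i₀ : ι) (h0 : f i₀ = 0)
    (E : Polynomial L) (hm : E.Monic) (hd : E.natDegree = N) (h1 : E.coeff 1 = 1)
    (hr : ∀ i, E.eval (f i) = 0) : ∏ i ∈ univ.erase i₀, (-f i) = 1 := by
  have : DecidableEq L := Classical.decEq L
  have hE : E = ∏ i, (Polynomial.X - C (f i)) := by
    rw [← sub_eq_zero]
    refine Polynomial.eq_zero_of_degree_lt_of_eval_finset_eq_zero (univ.image f) ?_ ?_
    · have hc : (univ.image f).card = N := by
        rw [card_image_of_injective _ hinj, card_univ, hcard]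
      rw [hc]
      have hd2 : (∏ i, (Polynomial.X - C (f i))).degree = (N : WithBot ℕ) := by
        rw [degree_prod]
        simp [degree_X_sub_C, hcard]
      have hd1 : E.degree = (N : WithBot ℕ) := by
        rw [degree_eq_natDegree hm.ne_zero, hd]
      have h := degree_sub_lt_left (p := E) (q := ∏ i, (Polynomial.X - C (f i))) (by rw [hd1, hd2])
        hm.ne_zero (by
          rw [hm.leadingCoeff, (monic_prod_of_monic _ _ fun i _ => monic_X_sub_C _).leadingCoeff])
      rw [hd1] at h
      exact h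
    · intro x hx
      obtain ⟨i, -, rfl⟩ := mem_image.1 hx
      rw [eval_sub, hr i, eval_prod, prod_eq_zero (mem_univ i) (by simp), sub_zero]
  have h2 : E = Polynomial.X * ∏ i ∈ univ.erase i₀, (Polynomial.X - C (f i)) := by
    rw [hE, ← mul_prod_erase univ _ (mem_univ i₀), h0, C_0, sub_zero]
  rw [h2, coeff_X_mul, coeff_zero_eq_eval_zero, eval_prod] at h1
  rw [← h1]
  refine prod_congr rfl fun i _ => ?_
  simp

end

end P33a

open P33a in
theorem p33_thm : S_P33 := by
  intro p k F L _ _ _ _ _ _ f q s t X G₀ ρ P hp hp2 hchar hf hq hF hR hC hO U hU he0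
  classical
  have hfin : Finite F := by
    apply Nat.finite_of_card_ne_zero
    rw [hF, hq]
    exact (pow_pos hp.pos f).ne'
  have := Fintype.ofFinite F
  have hp3 : 3 ≤ p := by
    have := hp.two_le
    omega
  have hq3 : 3 ≤ q := by
    rw [hq]
    calc 3 ≤ p := hp3
      _ = p ^ 1 := (pow_one p).symm
      _ ≤ p ^ f := Nat.pow_le_pow_right hp.pos hf
  have hqz : (3 : ℤ) ≤ (q : ℤ) := by exact_mod_cast hq3
  have hQ3 : (3 : ℤ) ≤ (q : ℤ) ^ (s + 1) := by
    calc (3 : ℤ) ≤ (q : ℤ) := hqz
      _ = (q : ℤ) ^ 1 := (pow_one _).symm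
      _ ≤ (q : ℤ) ^ (s + 1) := pow_le_pow_right₀ (by linarith) (by omega)
  have hchL : CharP L p := charP_of_injective_algebraMap (algebraMap k L).injective p
  have hcst : ∀ c : F, cst k F L c ^ q = cst k F L c := by
    intro c
    unfold cst
    rw [← map_pow, ← map_pow]
    congr 2
    rw [← hF, Nat.card_eq_fintype_card]
    exact FiniteField.pow_card c
  -- the coefficients
  obtain ⟨a, ha⟩ : ∃ a : Polynomial k, a = -(Polynomial.X ^ ((q - 1) * q ^ (s + 1)) +
    C 2 * Polynomial.X ^ ((q - 1) * q ^ (s + 1) - 1)) := ⟨_, rfl⟩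
  obtain ⟨b, hb⟩ : ∃ b : Polynomial k, b = Polynomial.X ^ (q ^ (s + 2) - 2) := ⟨_, rfl⟩
  have haa : aeval t a = -(t ^ ((q - 1) * q ^ (s + 1)) + 2 * t ^ ((q - 1) * q ^ (s + 1) - 1)) := by
    have h2 : algebraMap k L 2 = 2 := map_ofNat (algebraMap k L) 2
    rw [ha]
    simp only [map_neg, map_add, map_mul, map_pow, aeval_X, aeval_C, h2]
  have hbb : aeval t b = t ^ (q ^ (s + 2) - 2) := by
    rw [hb]
    simp
  have hrelX : ∀ i, X i ^ q ^ (s + 3) + aeval t a * X i ^ q ^ (s + 2) + aeval t b * X i ^ q +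
      X i = 0 := by
    intro i
    rw [haa, hbb]
    linear_combination hR.rel i
  have hpow : ∀ m (u : Fin (s + 3) → F), xv k X u ^ q ^ m =
      ∑ i, cst k F L (u i) * X i ^ q ^ m := by
    intro m u
    unfold xv
    rw [FN1.pow_sum hp hq]
    refine sum_congr rfl fun i _ => ?_
    rw [mul_pow, FN1.pow_cst (hcst (u i))]
  have hrel : ∀ u : Fin (s + 3) → F, xv k X u ^ q ^ (s + 3) + aeval t a * xv k X u ^ q ^ (s + 2) +
      aeval t b * xv k X u ^ q + xv k X u = 0 := by
    intro u
    have h1 := hpow 1 u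
    simp only [pow_one] at h1
    rw [hpow (s + 3), hpow (s + 2), h1, mul_sum, mul_sum]
    unfold xv
    rw [← sum_add_distrib, ← sum_add_distrib, ← sum_add_distrib]
    refine sum_eq_zero fun i _ => ?_
    linear_combination (cst k F L (u i)) * hrelX i
  have h12 : q < q ^ (s + 2) := by
    calc q = q ^ 1 := (pow_one q).symm
      _ < q ^ (s + 2) := Nat.pow_lt_pow_right (by omega) (by omega)
  have h23 : q ^ (s + 2) < q ^ (s + 3) := Nat.pow_lt_pow_right (by omega) (by omega)
  -- integrality
  have hint : ∀ u : Fin (s + 3) → F,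
      (aeval t : Polynomial k →ₐ[k] L).toRingHom.IsIntegralElem (xv k X u) := by
    intro u
    refine ⟨Polynomial.X ^ q ^ (s + 3) + (C a * Polynomial.X ^ q ^ (s + 2) +
      C b * Polynomial.X ^ q + Polynomial.X), ?_, ?_⟩
    · refine monic_X_pow_add ?_
      refine lt_of_le_of_lt (degree_add_le _ _) (max_lt ?_ ?_)
      · refine lt_of_le_of_lt (degree_add_le _ _) (max_lt ?_ ?_)
        · exact lt_of_le_of_lt (degree_C_mul_X_pow_le _ _) (by exact_mod_cast h23)
        · exact lt_of_le_of_lt (degree_C_mul_X_pow_le _ _) (by exact_mod_cast h12.trans h23)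
      · refine lt_of_le_of_lt degree_X_le ?_
        have h3 : 1 < q ^ (s + 3) := by omega
        exact_mod_cast h3
    · have := hrel u
      simp only [eval₂_add, eval₂_mul, eval₂_pow, eval₂_X, eval₂_C]
      rw [← this]
      simp only [AlgHom.toRingHom_eq_coe, RingHom.coe_coe]
      ring
  -- products over stable sets
  have hmem : ∀ S : Finset (Fin (s + 3) → F), (∀ g ∈ G₀, ∀ u ∈ S, g.1.mulVec u ∈ S) →
      ∃ R : Polynomial k, ∏ u ∈ S, xv k X u = aeval t R := by
    intro S hS
    refine T33a.int_poly hR.tr ((hC.cov.fixed _).1 fun g => prod_fix hC S hS g) ?_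
    let _ : Algebra (Polynomial k) L := (aeval t : Polynomial k →ₐ[k] L).toRingHom.toAlgebra
    have h : ∀ u ∈ S, IsIntegral (Polynomial k) (xv k X u) := fun u _ => hint u
    exact IsIntegral.prod _ h
  -- the product of the nonzero roots
  have hprod : ∏ u ∈ univ.erase (0 : Fin (s + 3) → F), (-xv k X u) = 1 := by
    refine prod_roots (N := q ^ (s + 3)) (xv k X) (xv_inj hR.ind) ?_ 0 ?_
      (Polynomial.X ^ q ^ (s + 3) + (C (aeval t a) * Polynomial.X ^ q ^ (s + 2) +
        C (aeval t b) * Polynomial.X ^ q + Polynomial.X)) ?_ ?_ ?_ ?_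
    · rw [Fintype.card_fun, Fintype.card_fin, ← hF, Nat.card_eq_fintype_card]
    · unfold xv
      simp [cst]
    · refine monic_X_pow_add ?_
      refine lt_of_le_of_lt (degree_add_le _ _) (max_lt ?_ ?_)
      · refine lt_of_le_of_lt (degree_add_le _ _) (max_lt ?_ ?_)
        · exact lt_of_le_of_lt (degree_C_mul_X_pow_le _ _) (by exact_mod_cast h23)
        · exact lt_of_le_of_lt (degree_C_mul_X_pow_le _ _) (by exact_mod_cast h12.trans h23)
      · refine lt_of_le_of_lt degree_X_le ?_
        have h3 : 1 < q ^ (s + 3) := by omega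
        exact_mod_cast h3
    · refine natDegree_eq_of_degree_eq_some ?_
      rw [degree_add_eq_left_of_degree_lt]
      · exact degree_X_pow _
      · rw [degree_X_pow]
        refine lt_of_le_of_lt (degree_add_le _ _) (max_lt ?_ ?_)
        · refine lt_of_le_of_lt (degree_add_le _ _) (max_lt ?_ ?_)
          · exact lt_of_le_of_lt (degree_C_mul_X_pow_le _ _) (by exact_mod_cast h23)
          · exact lt_of_le_of_lt (degree_C_mul_X_pow_le _ _) (by exact_mod_cast h12.trans h23)
        · refine lt_of_le_of_lt degree_X_le ?_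
          have h3 : 1 < q ^ (s + 3) := by omega
          exact_mod_cast h3
    · simp only [coeff_add, coeff_C_mul, coeff_X_pow, coeff_X]
      rw [if_neg (by omega), if_neg (by omega), if_neg (by omega)]
      simp
    · intro u
      have := hrel u
      simp only [eval_add, eval_mul, eval_pow, eval_X, eval_C]
      rw [← this]
      ring
  have hprod2 : ∏ u ∈ univ.erase (0 : Fin (s + 3) → F), xv k X u = 1 := by
    rw [← hprod]
    refine Finset.prod_nbij' (fun u => -u) (fun u => -u) ?_ ?_ ?_ ?_ ?_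
    · intro u hu
      simpa using hu
    · intro u hu
      simpa using hu
    · intro u _
      exact neg_neg u
    · intro u _
      exact neg_neg u
    · intro u _
      rw [xv_neg, neg_neg]
  -- the two sets
  have hinv : ∀ g ∈ G₀, ∀ u : Fin (s + 3) → F,
      (g⁻¹).1.mulVec (g.1.mulVec u) = u := by
    intro g _ u
    have h : (g⁻¹).1 * g.1 = 1 := by
      have h1 : ((g⁻¹ * g) : Matrix.SpecialLinearGroup (Fin (s + 3)) F).1 = 1 := by
        rw [inv_mul_cancel]
        rfl
      exact h1
    rw [Matrix.mulVec_mulVec, h, Matrix.one_mulVec]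
  obtain ⟨R₁, hR₁⟩ := hmem (univ.filter fun u => u ∈ U ∧ u ≠ 0) (by
    intro g hg u hu
    simp only [mem_filter, mem_univ, true_and] at hu ⊢
    refine ⟨hU g hg u hu.1, fun h => hu.2 ?_⟩
    rw [← hinv g hg u, h, Matrix.mulVec_zero])
  obtain ⟨R₂, hR₂⟩ := hmem (univ.filter fun u => u ∉ U) (by
    intro g hg u hu
    simp only [mem_filter, mem_univ, true_and] at hu ⊢
    intro h
    apply hu
    rw [← hinv g hg u]
    exact hU g⁻¹ (G₀.inv_mem hg) _ h)
  have hmul : R₂ * R₁ = C 1 := by
    have hinj : Function.Injective (aeval t : Polynomial k →ₐ[k] L) :=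
      transcendental_iff_injective.1 hR.tr
    apply hinj
    rw [map_mul, ← hR₁, ← hR₂, C_1, map_one, ← hprod2, ← prod_union]
    · refine prod_congr ?_ fun _ _ => rfl
      ext u
      simp only [mem_union, mem_filter, mem_univ, true_and, mem_erase, and_true]
      constructor
      · rintro (h | h)
        · rintro rfl
          exact h U.zero_mem
        · exact h.2
      · intro h
        by_cases h1 : u ∈ U
        · exact Or.inr ⟨h1, h⟩
        · exact Or.inl h1
    · rw [disjoint_left]
      intro u h1 h2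
      simp only [mem_filter, mem_univ, true_and] at h1 h2
      exact h1 h2.1
  obtain ⟨σ, hσ, hσ2⟩ := T33a.unit_C (one_ne_zero) hmul
  have hord : P.ord (∏ u ∈ univ.filter (fun u : Fin (s + 3) → F => u ∉ U), xv k X u) = 0 := by
    rw [hR₂, hσ2, aeval_C]
    exact P.ord_const σ hσ
  have hneg : ∀ u : Fin (s + 3) → F, u ∉ U → P.ord (xv k X u) < 0 := by
    intro u hu
    by_cases hl : u (Fin.last (s + 2)) = 0
    · have h1 : ∃ i, i ≠ 0 ∧ u i ≠ 0 := by
        by_contra hcon
        push Not at hcon
        apply hu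
        have h2 : u = u 0 • Pi.single (0 : Fin (s + 3)) (1 : F) := by
          funext i
          by_cases hi : i = 0
          · rw [hi]
            simp
          · rw [hcon i hi]
            simp [hi]
        rw [h2]
        exact U.smul_mem _ he0
      have h2 : (q : ℤ) * ((q : ℤ) ^ (s + 1) - 1) * P.ord (xv k X u) =
        ((q : ℤ) ^ (s + 1) - 2) * P.ord t := hO.mid u hl h1
      have h3 : ((q : ℤ) ^ (s + 1) - 2) * P.ord t < 0 :=
        mul_neg_of_pos_of_neg (by linarith) hO.neg
      by_contra hcon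
      rw [not_lt] at hcon
      have h4 : 0 ≤ (q : ℤ) * ((q : ℤ) ^ (s + 1) - 1) * P.ord (xv k X u) :=
        mul_nonneg (mul_nonneg (by linarith) (by linarith)) hcon
      linarith
    · have h2 : (q : ℤ) * P.ord (xv k X u) = P.ord t := hO.top u hl
      by_contra hcon
      rw [not_lt] at hcon
      have h4 : 0 ≤ (q : ℤ) * P.ord (xv k X u) := mul_nonneg (by linarith) hcon
      have := hO.neg
      linarith
  rw [ord_prod P _ _ (fun u hu => xv_ne hR.ind (by
    rintro rfl
    simp only [mem_filter, mem_univ, true_and] at hu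
    exact hu U.zero_mem))] at hord
  rw [eq_top_iff]
  intro u _
  by_contra hu
  have h1 : ∑ u ∈ univ.filter (fun u : Fin (s + 3) → F => u ∉ U), P.ord (xv k X u) < 0 := by
    refine sum_neg (fun v hv => hneg v (by simpa using hv)) ⟨u, by simpa using hu⟩
  linarith

end Pool.CND
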